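import Mathlib
import Pool.Agent.BOG.Stmts

/-!
# Row DOW of MP_9a4f8a_co

The rank three Dowling geometry of the cyclic group `(ZMod p)ˣ` has `3 p` points and is
representable over `ZMod p` and over a field of characteristic zero.  The points are the pairs
`(i, x)`, `i : Fin 3`, `x : ZMod p`; the vector of `(i, x)` is `e_i - ψ x e_(i+1)` for an injective
multiplicative map `ψ` of `ZMod p` to the field (with `ψ 0 = 0`).
-/

set_option autoImplicit false

namespace Pool.Agent.BOG.H30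

open Pool.Agent.Helper61_Gamma
open Pool.Agent.BOG

universe u v

/-- the vector of a point -/
def vc {K : Type v} [Field K] {W : Type} (ψ : W → K) : Fin 3 → W → Fin 3 → K
  | 0, x => ![1, -ψ x, 0]
  | 1, x => ![0, 1, -ψ x]
  | 2, x => ![-ψ x, 0, 1]

/-- injective multiplicative maps -/
structure Mu {K : Type v} [Field K] {p : ℕ} [Fact p.Prime] (ψ : ZMod p → K) : Prop where
  z : ψ 0 = 0
  o : ψ 1 = 1
  m : ∀ x y, ψ (x * y) = ψ x * ψ y
  i : Function.Injective ψ

variable {K : Type v} [Field K] {p : ℕ} [Fact p.Prime] {ψ : ZMod p → K}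

lemma Mu.e (h : Mu ψ) {x y : ZMod p} : ψ x = ψ y ↔ x = y := h.i.eq_iff

lemma Mu.e0 (h : Mu ψ) {x : ZMod p} : ψ x = 0 ↔ x = 0 := by
  rw [← h.z, h.e]

lemma Mu.d2 (h : Mu ψ) (x y : ZMod p) (D : K) (hD : D = ψ x - ψ y ∨ D = ψ y - ψ x) :
    D = 0 ↔ x = y := by
  rcases hD with hD | hD
  · rw [hD, sub_eq_zero, h.e]
  · rw [hD, sub_eq_zero, h.e, eq_comm]

lemma Mu.d3 (h : Mu ψ) (x y z : ZMod p) (D : K)
    (hD : D = ψ z * (ψ x - ψ y) ∨ D = ψ z * (ψ y - ψ x)) :
    D = 0 ↔ (z = 0 ∨ x = y) := by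
  rcases hD with hD | hD
  · rw [hD, mul_eq_zero, sub_eq_zero, h.e, h.e0]
  · rw [hD, mul_eq_zero, sub_eq_zero, h.e, h.e0, @eq_comm _ y x]

lemma Mu.d4 (h : Mu ψ) (x y z : ZMod p) (D : K)
    (hD : D = 1 - ψ x * ψ y * ψ z ∨ D = ψ x * ψ y * ψ z - 1) :
    D = 0 ↔ x * y * z = 1 := by
  have h1 : ψ x * ψ y * ψ z = 1 ↔ x * y * z = 1 := by
    rw [← h.m, ← h.m, ← h.o, h.e]
  rcases hD with hD | hD
  · rw [hD, sub_eq_zero, eq_comm, h1]
  · rw [hD, sub_eq_zero, h1]

/-- the vanishing of the determinants does not depend on the field -/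
lemma key {K' : Type u} [Field K'] {ψ' : ZMod p → K'} (h : Mu ψ) (h' : Mu ψ') (i j k : Fin 3)
    (x y z : ZMod p) : Dt (vc ψ i x) (vc ψ j y) (vc ψ k z) = 0 ↔
      Dt (vc ψ' i x) (vc ψ' j y) (vc ψ' k z) = 0 := by
  fin_cases i <;> fin_cases j <;> fin_cases k <;> simp only [Dt, vc, Fin.isValue, Fin.mk_zero,
    Fin.mk_one, Fin.reduceFinMk, Matrix.cons_val_zero, Matrix.cons_val_one, Matrix.cons_val] <;>
  first
    | (refine iff_of_true ?_ ?_ <;> ring1)
    | (refine (h.d2 x y _ (Or.inl ?_)).trans (h'.d2 x y _ (Or.inl ?_)).symm <;> ring1)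
    | (refine (h.d2 x y _ (Or.inr ?_)).trans (h'.d2 x y _ (Or.inr ?_)).symm <;> ring1)
    | (refine (h.d2 x z _ (Or.inl ?_)).trans (h'.d2 x z _ (Or.inl ?_)).symm <;> ring1)
    | (refine (h.d2 x z _ (Or.inr ?_)).trans (h'.d2 x z _ (Or.inr ?_)).symm <;> ring1)
    | (refine (h.d2 y z _ (Or.inl ?_)).trans (h'.d2 y z _ (Or.inl ?_)).symm <;> ring1)
    | (refine (h.d2 y z _ (Or.inr ?_)).trans (h'.d2 y z _ (Or.inr ?_)).symm <;> ring1)
    | (refine (h.d3 x y z _ (Or.inl ?_)).trans (h'.d3 x y z _ (Or.inl ?_)).symm <;> ring1)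
    | (refine (h.d3 x y z _ (Or.inr ?_)).trans (h'.d3 x y z _ (Or.inr ?_)).symm <;> ring1)
    | (refine (h.d3 x z y _ (Or.inl ?_)).trans (h'.d3 x z y _ (Or.inl ?_)).symm <;> ring1)
    | (refine (h.d3 x z y _ (Or.inr ?_)).trans (h'.d3 x z y _ (Or.inr ?_)).symm <;> ring1)
    | (refine (h.d3 y z x _ (Or.inl ?_)).trans (h'.d3 y z x _ (Or.inl ?_)).symm <;> ring1)
    | (refine (h.d3 y z x _ (Or.inr ?_)).trans (h'.d3 y z x _ (Or.inr ?_)).symm <;> ring1)
    | (refine (h.d4 x y z _ (Or.inl ?_)).trans (h'.d4 x y z _ (Or.inl ?_)).symm <;> ring1)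
    | (refine (h.d4 x y z _ (Or.inr ?_)).trans (h'.d4 x y z _ (Or.inr ?_)).symm <;> ring1)

/-- different points are not parallel -/
lemma simp' (h : Mu ψ) (i j : Fin 3) (x y : ZMod p) (hne : i ≠ j ∨ x ≠ y) :
    ∃ k, Dt (vc ψ i x) (vc ψ j y) (vc ψ k 0) ≠ 0 := by
  have h2 : i = j → ψ x ≠ ψ y := by
    intro hij hxy
    rcases hne with hne | hne
    · exact hne hij
    · exact hne (h.i hxy)
  fin_cases i <;> fin_cases j
  · refine ⟨2, ?_⟩
    have h3 := h2 rfl
    simp only [Dt, vc, h.z, Fin.isValue, Fin.mk_zero,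
      Fin.mk_one, Fin.reduceFinMk, Matrix.cons_val_zero, Matrix.cons_val_one, Matrix.cons_val]
    intro h4
    apply h3
    linear_combination h4
  · refine ⟨2, ?_⟩
    simp [Dt, vc, h.z]
  · refine ⟨1, ?_⟩
    simp [Dt, vc, h.z]
  · refine ⟨2, ?_⟩
    simp [Dt, vc, h.z]
  · refine ⟨0, ?_⟩
    have h3 := h2 rfl
    simp only [Dt, vc, h.z, Fin.isValue, Fin.mk_zero,
      Fin.mk_one, Fin.reduceFinMk, Matrix.cons_val_zero, Matrix.cons_val_one, Matrix.cons_val]
    intro h4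
    apply h3
    linear_combination h4
  · refine ⟨0, ?_⟩
    simp [Dt, vc, h.z]
  · refine ⟨1, ?_⟩
    simp [Dt, vc, h.z]
  · refine ⟨0, ?_⟩
    simp [Dt, vc, h.z]
  · refine ⟨1, ?_⟩
    have h3 := h2 rfl
    simp only [Dt, vc, h.z, Fin.isValue, Fin.mk_zero,
      Fin.mk_one, Fin.reduceFinMk, Matrix.cons_val_zero, Matrix.cons_val_one, Matrix.cons_val]
    intro h4
    apply h3
    linear_combination h4

/-- an injective multiplicative character with values in `ℂ` -/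
lemma exC (p : ℕ) [Fact p.Prime] : ∃ ψ : ZMod p → ℂ, Mu ψ := by
  have hp : 0 < p - 1 := by
    have := (Fact.out : p.Prime).two_le
    omega
  have : NeZero (p - 1) := ⟨hp.ne'⟩
  have hc : Nat.card (ZMod p)ˣ = Nat.card (rootsOfUnity (p - 1) ℂ) := by
    rw [Nat.card_eq_fintype_card, ZMod.card_units, Complex.card_rootsOfUnity]
  let φ : (ZMod p)ˣ ≃* rootsOfUnity (p - 1) ℂ := mulEquivOfCyclicCardEq hc
  classical
  refine ⟨fun x => if h : x = 0 then 0 else (((φ (Units.mk0 x h) : rootsOfUnity (p - 1) ℂ) : ℂˣ) : ℂ),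
    ?_, ?_, ?_, ?_⟩
  · simp
  · have h1 : Units.mk0 (1 : ZMod p) one_ne_zero = 1 := by
      ext
      rfl
    rw [dif_neg one_ne_zero, h1, map_one]
    rfl
  · intro x y
    by_cases hx : x = 0
    · simp [hx]
    · by_cases hy : y = 0
      · simp [hy]
      · have hxy : x * y ≠ 0 := mul_ne_zero hx hy
        have h1 : Units.mk0 (x * y) hxy = Units.mk0 x hx * Units.mk0 y hy := by
          ext
          rfl
        simp only [hx, hy, hxy, dif_neg, not_false_iff]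
        rw [h1, map_mul]
        rfl
  · intro x y hxy
    by_cases hx : x = 0
    · by_cases hy : y = 0
      · rw [hx, hy]
      · simp only [hx, hy, dif_pos, dif_neg, not_false_iff] at hxy
        exact absurd hxy.symm (Units.ne_zero _)
    · by_cases hy : y = 0
      · simp only [hx, hy, dif_pos, dif_neg, not_false_iff] at hxy
        exact absurd hxy (Units.ne_zero _)
      · simp only [hx, hy, dif_neg, not_false_iff] at hxy
        have h1 := φ.injective (Subtype.ext (Units.ext hxy))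
        have h2 := congrArg Units.val h1
        simpa using h2

/-- row DOW -/
theorem dow : DowStmt.{u, v} := by
  intro p _
  have h1 : Mu (K := ZMod p) (fun x : ZMod p => x) :=
    ⟨rfl, rfl, fun _ _ => rfl, fun _ _ h => h⟩
  obtain ⟨ψ, hψ⟩ := exC p
  have h2 : Mu (K := ULift.{v} ℂ) (fun x : ZMod p => ULift.up (ψ x)) := by
    refine ⟨?_, ?_, ?_, ?_⟩
    · show ULift.up (ψ 0) = 0
      rw [hψ.z]
      rfl
    · show ULift.up (ψ 1) = 1
      rw [hψ.o]
      rfl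
    · intro x y
      show ULift.up (ψ (x * y)) = ULift.up (ψ x) * ULift.up (ψ y)
      rw [hψ.m]
      rfl
    · intro x y hxy
      exact hψ.i (ULift.up_injective hxy)
  let W := ULift.{u} (Fin 3 × ZMod p)
  have hnt : Nontrivial W := by
    refine ⟨⟨⟨(0, 0)⟩, ⟨(1, 0)⟩, ?_⟩⟩
    intro h
    have := congrArg (fun z : W => z.down.1) h
    simp at this
  let V1 : W → Fin 3 → ZMod p := fun s => vc (fun x : ZMod p => x) s.down.1 s.down.2
  let V2 : W → Fin 3 → ULift.{v} ℂ := fun s => vc (fun x : ZMod p => ULift.up (ψ x)) s.down.1 s.down.2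
  have hs : ∀ s t : W, s ≠ t → ∃ r, Dt (V1 s) (V1 t) (V1 r) ≠ 0 := by
    intro s t hst
    have hne : s.down.1 ≠ t.down.1 ∨ s.down.2 ≠ t.down.2 := by
      by_contra hcon
      push Not at hcon
      exact hst (ULift.down_injective (Prod.ext hcon.1 hcon.2))
    obtain ⟨k, hk⟩ := simp' h1 s.down.1 t.down.1 s.down.2 t.down.2 hne
    exact ⟨⟨(k, 0)⟩, hk⟩
  have hv : ∃ s t r : W, Dt (V1 s) (V1 t) (V1 r) ≠ 0 := by
    obtain ⟨s, t, hst⟩ := hnt
    obtain ⟨r, hr⟩ := hs s t hst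
    exact ⟨s, t, r, hr⟩
  refine ⟨W, vecMatroid V1, vec_simple hs, vec_rank hv, ?_, vec_rep _, ULift.{v} ℂ,
    inferInstance, ?_, ?_⟩
  · rw [vec_E, Set.encard_univ]
    have : Nat.card W = 3 * p := by
      rw [Nat.card_congr Equiv.ulift, Nat.card_prod]
      simp
    rw [ENat.card_eq_coe_natCard, this]
  · exact ringChar.eq (ULift.{v} ℂ) 0
  · apply vec_transfer (v' := V2) _ hv
    intro s t r
    exact key h1 h2 _ _ _ _ _ _

end Pool.Agent.BOG.H30
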